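import Mathlib
import Pool.Agent.Lib.P6b15b2.Final
import Pool.Agent.Lib.P6b15b2.Nec

/-!
# The finite-dimensional normed spaces in which all Chebyshev sets are convex
-/

namespace Pool.Agent.Results.MP_6b15b2_an.Characterization

/-- `G` is a Chebyshev set: every point has exactly one nearest point in `G`. -/
def IsChebyshev {E : Type*} [NormedAddCommGroup E] (G : Set E) : Prop :=
  ∀ x : E, ∃! g : E, g ∈ G ∧ ∀ h ∈ G, ‖x - g‖ ≤ ‖x - h‖

/-- Property (C): every Chebyshev set is convex. -/
def PropertyC (E : Type*) [NormedAddCommGroup E] [NormedSpace ℝ E] : Prop :=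
  ∀ G : Set E, IsChebyshev G → Convex ℝ G

/-- `x` is a smooth point of the unit sphere: exactly one norm-one functional takes the value `1`
at `x`. -/
def IsSmoothPoint {E : Type*} [NormedAddCommGroup E] [NormedSpace ℝ E] (x : E) : Prop :=
  ∃! f : StrongDual ℝ E, ‖f‖ = 1 ∧ f x = 1

/-- A finite-dimensional real normed space has property (C) if and only if every exposed point of
its unit sphere is a smooth point. -/
theorem result (E : Type*) [NormedAddCommGroup E] [NormedSpace ℝ E] [FiniteDimensional ℝ E] :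
    PropertyC E ↔
      ∀ x : E, ‖x‖ = 1 → x ∈ (Metric.closedBall (0 : E) 1).exposedPoints ℝ → IsSmoothPoint x := by
  constructor
  · intro h x hx hexp
    have hsm : Pool.Agent.Lib.P6b15b2.Smooth x :=
      Pool.Agent.Lib.P6b15b2.nec (fun G hG => h G hG) hx hexp
    obtain ⟨f, hf1, hf2⟩ := exists_dual_vector ℝ x (by rw [hx]; exact one_ne_zero)
    rw [hx] at hf2
    have hf2' : f x = 1 := by simpa using hf2
    exact ⟨f, ⟨hf1, hf2'⟩, fun f' hf' => hsm f' f hf'.1 hf'.2 hf1 hf2'⟩
  · intro h G hG
    refine Pool.Agent.Lib.P6b15b2.suff (G := G) hG ?_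
    intro u hu hexp f f' h1 h2 h3 h4
    obtain ⟨f₀, -, huniq⟩ := h u hu hexp
    rw [huniq f ⟨h1, h2⟩, huniq f' ⟨h3, h4⟩]

end Pool.Agent.Results.MP_6b15b2_an.Characterization
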